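import Pool.Agent.Q289.RH.Series

/-!
# The density of the record-indicator harmonic series is discontinuous in `(1, ∞)`

`I n` stands for the indicator `I_{n+1}` of the problem.
-/

set_option autoImplicit false

open MeasureTheory ProbabilityTheory Filter

namespace Pool.Agent.Results.MP_37d573_pr.Discontinuous

open Q289.RH

/-- every version of the density of the law of `S = ∑ I_n / n` is discontinuous at some point of
`(1, 3/2]` -/
theorem result {Ω : Type} [MeasurableSpace Ω] (P : Measure Ω) [IsProbabilityMeasure P]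
    (I : ℕ → Ω → ℝ) (hmeas : ∀ n, Measurable (I n)) (hval : ∀ n ω, I n ω = 0 ∨ I n ω = 1)
    (hprob : ∀ n : ℕ, P.real {ω | I n ω = 1} = 1 / ((n : ℝ) + 1)) (hind : iIndepFun I P)
    (f : ℝ → ℝ) (hf : P.map (fun ω => ∑' n : ℕ, I n ω / ((n : ℝ) + 1)) =
      volume.withDensity fun x => ENNReal.ofReal (f x)) :
    ∃ x ∈ Set.Ioc (1 : ℝ) (3 / 2), ¬ ContinuousAt f x := by
  by_contra hcon
  push Not at hcon
  set J : ℕ → Ω → ℝ := fun k => I (k + 1) with hJ
  have hp : ∀ k : ℕ, 1 / (((k + 1 : ℕ) : ℝ) + 1) = p k := fun k => by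
    unfold p; push_cast; ring
  have h : Ind P J := ⟨fun k => hmeas (k + 1), fun k => hval (k + 1), fun k => by
    rw [← hp k]; exact hprob (k + 1), hind.precomp (add_left_injective 1)⟩
  -- the first indicator
  have h0 : ∀ᵐ ω ∂P, I 0 ω = 1 := by
    have h1 := hprob 0
    rw [Nat.cast_zero, zero_add, div_one] at h1
    have h2 := (ENNReal.toReal_eq_one_iff _).1 h1
    exact (mem_ae_iff_prob_eq_one (hmeas 0 (measurableSet_singleton 1))).2 h2
  have hS : ∀ᵐ ω ∂P, T J ω = (∑' n : ℕ, I n ω / ((n : ℝ) + 1)) - 1 := by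
    filter_upwards [h0, h.ae_summable] with ω h1 h2
    have h3 : (fun k => J k ω * p k) = fun n : ℕ => I (n + 1) ω / (((n + 1 : ℕ) : ℝ) + 1) := by
      funext k
      rw [← hp k]
      ring
    unfold T
    rw [h3] at h2 ⊢
    have h4 : Summable fun n : ℕ => I n ω / ((n : ℝ) + 1) := (summable_nat_add_iff 1).1 h2
    rw [h4.tsum_eq_zero_add, h1]
    push_cast
    ring
  have hSm : Measurable fun ω => ∑' n : ℕ, I n ω / ((n : ℝ) + 1) :=
    Measurable.tsum fun n => (hmeas n).div_const _
  have hd : P.map (T J) = volume.withDensity fun x => ENNReal.ofReal (f (x + 1)) := by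
    have h1 : P.map (T J) = (P.map fun ω => ∑' n : ℕ, I n ω / ((n : ℝ) + 1)).map
        (fun x => x - 1) := by
      rw [Measure.map_map (by fun_prop) hSm]
      exact Measure.map_congr hS
    rw [h1, hf]
    ext s hs
    have hsub : Measurable fun x : ℝ => x - 1 := by fun_prop
    rw [Measure.map_apply hsub hs, withDensity_apply _ (hsub hs), withDensity_apply _ hs]
    have h2 := (measurePreserving_add_right (volume : Measure ℝ) 1).setLIntegral_comp_preimage_emb
      (measurableEmbedding_addRight 1) (fun x => ENNReal.ofReal (f x)) ((fun x => x - 1) ⁻¹' s)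
    rw [← h2]
    congr 2
    ext x
    simp
  refine h.no_density hd fun y hy => ?_
  have h1 : ContinuousAt f (y + 1) := hcon (y + 1) ⟨by linarith [hy.1], by linarith [hy.2]⟩
  exact ContinuousAt.comp (f := fun x : ℝ => x + 1) h1 (by fun_prop)

end Pool.Agent.Results.MP_37d573_pr.Discontinuous
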